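import Pool.Agent.V11308.AperyTerm

/-!
# MP_a0b46e: `u_m(p-1) ≡ 0 (mod p^4)` for every `m` and every prime `p > 2m+5`.
-/

namespace Pool.Agent.Results.MP_a0b46e_nt.NumeratorP4

open Finset Pool.Agent.V11308

/-- `S_m(n) = ∑_{k=1}^n C(n,k)^2 C(n+k,k)^2 / k^(2m+1)`, a rational number. -/
def S (m n : ℕ) : ℚ :=
  ∑ k ∈ Finset.Icc 1 n, ((n.choose k : ℚ) ^ 2 * ((n + k).choose k : ℚ) ^ 2) / (k : ℚ) ^ (2 * m + 1)

lemma key (m p : ℕ) (hp : p.Prime) (hpm : 2 * m + 5 < p) : (p : ℤ) ^ 4 ∣ (S m (p - 1)).num := by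
  haveI : Fact p.Prime := ⟨hp⟩
  have hE : ∀ k ∈ Finset.Ico 1 p, ∃ e : ℤ_[p], ((cc p k : ℕ) : ℤ_[p]) ^ 2 =
      p ^ 2 * (t p k ^ 2 - 2 * p * t p k ^ 3) + p ^ 4 * e := fun k hk => cc_sq k hk
  choose! e he using hE
  have hH3 : (p : ℤ_[p]) ^ 2 ∣ H p (2 * m + 3) := by
    apply sq_dvd_H ⟨m + 1, by ring⟩ (by omega)
    intro h
    have := Nat.le_of_dvd (by omega) h
    omega
  have hH4 : (p : ℤ_[p]) ∣ H p (2 * m + 4) := by
    apply dvd_H
    intro h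
    have := Nat.le_of_dvd (by omega) h
    omega
  obtain ⟨a, ha⟩ := hH3
  obtain ⟨b, hb⟩ := hH4
  apply dvd_num_of_padic (a - 2 * b + ∑ k ∈ Finset.Ico 1 p, e k * t p k ^ (2 * m + 1))
  have hIcc : Finset.Icc 1 (p - 1) = Finset.Ico 1 p := by
    ext k; simp only [Finset.mem_Icc, Finset.mem_Ico]; omega
  have h1 : ((S m (p - 1) : ℚ) : ℚ_[p]) =
      (((∑ k ∈ Finset.Ico 1 p, ((cc p k : ℕ) : ℤ_[p]) ^ 2 * t p k ^ (2 * m + 1) : ℤ_[p])) : ℚ_[p]) := by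
    unfold S
    rw [hIcc, PadicInt.coe_sum]
    push_cast
    apply Finset.sum_congr rfl
    intro k hk
    have ht : (k : ℤ_[p]) * t p k = 1 := mul_t (not_dvd_of_mem hk)
    have ht' : (k : ℚ_[p]) * ((t p k : ℤ_[p]) : ℚ_[p]) = 1 := by
      have := congrArg (fun z : ℤ_[p] => (z : ℚ_[p])) ht
      simpa using this
    have hk0 : (k : ℚ_[p]) ≠ 0 := left_ne_zero_of_mul_eq_one ht'
    have ht2 : ((t p k : ℤ_[p]) : ℚ_[p]) = (k : ℚ_[p])⁻¹ := eq_inv_of_mul_eq_one_right ht'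
    rw [ht2, cc]
    push_cast
    rw [inv_pow, div_eq_mul_inv]
    ring
  rw [h1]
  have h2 : ∑ k ∈ Finset.Ico 1 p, ((cc p k : ℕ) : ℤ_[p]) ^ 2 * t p k ^ (2 * m + 1) =
      p ^ 2 * H p (2 * m + 3) - 2 * p ^ 3 * H p (2 * m + 4) +
        p ^ 4 * ∑ k ∈ Finset.Ico 1 p, e k * t p k ^ (2 * m + 1) := by
    rw [H, H, Finset.mul_sum, Finset.mul_sum, Finset.mul_sum, ← Finset.sum_sub_distrib,
      ← Finset.sum_add_distrib]
    apply Finset.sum_congr rfl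
    intro k hk
    rw [he k hk]
    ring
  rw [h2, ha, hb]
  push_cast
  ring

/-- For every `m` there is a finite set `E` of primes (all of them at most `2m+5`) such that
`p^4` divides the numerator of `S_m(p-1)` for every prime `p` outside `E`. -/
theorem result : ∀ m : ℕ, ∃ E : Finset ℕ, (∀ q ∈ E, q.Prime ∧ q ≤ 2 * m + 5) ∧
    ∀ p : ℕ, p.Prime → p ∉ E → (p : ℤ) ^ 4 ∣ (S m (p - 1)).num := by
  intro m
  refine ⟨(Finset.range (2 * m + 6)).filter Nat.Prime, ?_, ?_⟩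
  · intro q hq
    rw [Finset.mem_filter, Finset.mem_range] at hq
    exact ⟨hq.2, by omega⟩
  · intro p hp hpE
    apply key m p hp
    by_contra h
    apply hpE
    rw [Finset.mem_filter, Finset.mem_range]
    exact ⟨by omega, hp⟩

end Pool.Agent.Results.MP_a0b46e_nt.NumeratorP4
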